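import Mathlib

namespace Pool.Agent.H.MP_906af0_co
open Finset

abbrev V := ℤ × ℤ × ℤ

/-- vertex `(t,x,y)`, `t = 2s+1`, of the form `t² - 8(x²+xy+y²)` -/
def N (v : V) : Prop := v.1 ^ 2 + v.1 = 2 * (v.2.1 ^ 2 + v.2.1 * v.2.2 + v.2.2 ^ 2)

def gam (p v : V) : ℤ :=
  p.1 * v.1 - (2 * p.2.1 * v.2.1 + p.2.1 * v.2.2 + p.2.2 * v.2.1 + 2 * p.2.2 * v.2.2)

def bet (p v : V) : ℤ := p.1 + v.1 + 2 * gam p v

def b (p v : V) : ℤ := 1 + 2 * bet p v

def h (p v : V) : V :=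
  (b p v * (2 * p.1 + 1) - v.1 - 1, 2 * b p v * p.2.1 - v.2.1, 2 * b p v * p.2.2 - v.2.2)

def r (p v : V) : V :=
  (v.1 + 3 * p.1 + 3 * gam p v + 3 * bet p v * p.1 + 3 * (p.2.1 * v.2.2 - p.2.2 * v.2.1),
   p.2.1 + 3 * bet p v * p.2.1 - (p.2.2 * (2 * v.1 + 1) - (2 * p.1 + 1) * v.2.2)
     + p.1 * v.2.1 - p.2.1 * v.1,
   2 * p.2.2 - v.2.2 + 3 * bet p v * p.2.2 + p.2.2 * v.1 - p.1 * v.2.2
     - ((2 * p.1 + 1) * v.2.1 - p.2.1 * (2 * v.1 + 1)))

def GA (v : V) : Prop := ¬ (3 ∣ v.1 - 1) ∧ 2 ∣ v.2.1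
def GB (v : V) : Prop := 3 ∣ v.1 - 1 ∧ 3 ∣ v.2.1 - v.2.2 - 1

noncomputable def emb (v : V) : Fin 3 → ℝ :=
  ![2 * v.1 + 1, √2 * (2 * v.2.1 + v.2.2), √6 * v.2.2]

lemma b_h {p : V} (hp : N p) (v : V) : b p (h p v) = b p v := by
  obtain ⟨s, x, y⟩ := p
  obtain ⟨s', x', y'⟩ := v
  simp only [N, b, bet, gam, h] at *
  linear_combination (8 * (1 + 2 * (s + s' + 2 * (s * s' - (2 * x * x' + x * y' + y * x' + 2 * y * y'))))) * hp

lemma N_iff (v : V) : N v ↔ b v v = 1 := by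
  obtain ⟨s, x, y⟩ := v
  simp only [N, b, bet, gam]
  constructor <;> intro hh <;> linarith

lemma N_h {p v : V} (hp : N p) (hv : N v) : N (h p v) := by
  obtain ⟨s, x, y⟩ := p
  obtain ⟨s', x', y'⟩ := v
  simp only [N, b, bet, gam, h] at *
  linear_combination hv + (4 * (1 + 2 * (s + s' + 2 * (s * s' - (2 * x * x' + x * y' + y * x' + 2 * y * y')))) ^ 2) * hp

lemma b_r {p : V} (hp : N p) (v : V) : b p (r p v) = b p v := by
  obtain ⟨s, x, y⟩ := p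
  obtain ⟨s', x', y'⟩ := v
  simp only [N, b, bet, gam, r] at *
  linear_combination (6 * (1 + 2 * (s + s' + 2 * (s * s' - (2 * x * x' + x * y' + y * x' + 2 * y * y'))))) * hp

lemma N_r {p v : V} (hp : N p) (hv : N v) : N (r p v) := by
  have e : bet p v = p.1 + v.1 + 2 * (p.1 * v.1 - (2 * p.2.1 * v.2.1 + p.2.1 * v.2.2 + p.2.2 * v.2.1
    + 2 * p.2.2 * v.2.2)) := rfl
  obtain ⟨s, x, y⟩ := p
  obtain ⟨s', x', y'⟩ := v
  simp only [N, bet, gam, r] at *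
  linear_combination (1 + 3 * (s ^ 2 + s - 2 * (x ^ 2 + x * y + y ^ 2))) * hv
    + (3 + 9 * (s + s' + 2 * (s * s' - (2 * x * x' + x * y' + y * x' + 2 * y * y')))
      + 9 * (s + s' + 2 * (s * s' - (2 * x * x' + x * y' + y * x' + 2 * y * y'))) ^ 2) * hp

lemma r_sum {p : V} (hp : N p) (v : V) :
    (2 * v.1 + 1) + (2 * (r p v).1 + 1) + (2 * (r p (r p v)).1 + 1) = 3 * b p v * (2 * p.1 + 1) ∧
    v.2.1 + (r p v).2.1 + (r p (r p v)).2.1 = 3 * b p v * p.2.1 ∧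
    v.2.2 + (r p v).2.2 + (r p (r p v)).2.2 = 3 * b p v * p.2.2 := by
  obtain ⟨s, x, y⟩ := p
  obtain ⟨s', x', y'⟩ := v
  simp only [N, b, bet, gam, r] at *
  refine ⟨?_, ?_, ?_⟩
  · linear_combination (9 * (1 + 2 * (s + s' + 2 * (s * s' - (2 * x * x' + x * y' + y * x' + 2 * y * y')))) * (2 * s + 1) - 3 * (2 * s' + 1)) * hp
  · linear_combination (9 * (1 + 2 * (s + s' + 2 * (s * s' - (2 * x * x' + x * y' + y * x' + 2 * y * y')))) * x - 3 * x') * hp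
  · linear_combination (9 * (1 + 2 * (s + s' + 2 * (s * s' - (2 * x * x' + x * y' + y * x' + 2 * y * y')))) * y - 3 * y') * hp

lemma r_inj {p : V} (hp : N p) : Function.Injective (r p) := by
  intro v w hvw
  have h1 := r_sum hp v
  have h2 := r_sum hp w
  have h3 : b p v = b p w := by rw [← b_r hp v, hvw, b_r hp w]
  rw [hvw, h3] at h1
  refine Prod.ext ?_ (Prod.ext ?_ ?_)
  · linarith [h1.1, h2.1]
  · linarith [h1.2.1, h2.2.1]
  · linarith [h1.2.2, h2.2.2]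

lemma h_inj {p : V} (hp : N p) : Function.Injective (h p) := by
  intro v w hvw
  have h3 : b p v = b p w := by rw [← b_h hp v, hvw, b_h hp w]
  simp only [h, Prod.mk.injEq, h3] at hvw
  refine Prod.ext ?_ (Prod.ext ?_ ?_)
  · linarith [hvw.1]
  · linarith [hvw.2.1]
  · linarith [hvw.2.2]

lemma z3 : ∀ s x y s' x' y' : ZMod 3, s ^ 2 + s = 2 * (x ^ 2 + x * y + y ^ 2) →
    s' ^ 2 + s' = 2 * (x' ^ 2 + x' * y' + y' ^ 2) →
    (1 + 2 * (s + s' + 2 * (s * s' - (2 * x * x' + x * y' + y * x' + 2 * y * y')))) * (2 * s + 1)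
      - s' - 1 - 1 = 0 → s' - 1 = 0 := by decide +kernel

lemma GA_h {p v : V} (hp : N p) (hv : N v) (g : GA v) : GA (h p v) := by
  obtain ⟨s, x, y⟩ := p
  obtain ⟨s', x', y'⟩ := v
  simp only [N, b, bet, gam, h, GA] at *
  refine ⟨fun hd => g.1 ?_, ?_⟩
  · have h1 := congrArg (Int.cast : ℤ → ZMod 3) hp
    have h2 := congrArg (Int.cast : ℤ → ZMod 3) hv
    have h3 := (ZMod.intCast_zmod_eq_zero_iff_dvd _ 3).2 hd
    push_cast at h1 h2 h3
    apply (ZMod.intCast_zmod_eq_zero_iff_dvd _ 3).1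
    push_cast
    exact z3 _ _ _ _ _ _ h1 h2 h3
  · apply Dvd.dvd.sub _ g.2
    rw [mul_assoc]
    exact Dvd.intro _ rfl

lemma GB_r {p v : V} (g : GB v) : GB (r p v) := by
  obtain ⟨s, x, y⟩ := p
  obtain ⟨s', x', y'⟩ := v
  simp only [GB, r] at *
  obtain ⟨⟨k, hk⟩, ⟨m, hm⟩⟩ := g
  generalize bet (s, x, y) (s', x', y') = β
  generalize gam (s, x, y) (s', x', y') = γ
  have e1 : s' = 3 * k + 1 := by linarith
  have e2 : x' = y' + 1 + 3 * m := by linarith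
  subst e1 e2
  constructor
  · exact ⟨k + s + γ + β * s + (x * y' - y * (y' + 1 + 3 * m)), by ring⟩
  · exact ⟨m + β * x - β * y + s * (y' + 1 + 3 * m) + s * y' + y' - 3 * x * k - x - 3 * y * k - 2 * y, by ring⟩

lemma sum_perm {T : Finset V} {φ : V → V} (hφ : Function.Injective φ) (hT : ∀ v ∈ T, φ v ∈ T)
    (f : V → (Fin 3 → ℝ)) : ∑ v ∈ T, f (φ v) = ∑ v ∈ T, f v := by
  have : T.image φ = T := by
    apply eq_of_subset_of_card_le
    · intro w hw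
      obtain ⟨v, hv, rfl⟩ := mem_image.1 hw
      exact hT v hv
    · rw [card_image_of_injective _ hφ]
  conv_rhs => rw [← this]
  rw [sum_image (fun a _ b _ hab => hφ hab)]

lemma bal {p : V} (hp : N p) (κ : ℝ) (T : Finset V)
    (hT : ∀ v, v ∈ T ↔ N v ∧ (GA v ∨ GB v) ∧ (b p v : ℝ) = κ) :
    ∑ v ∈ T, (emb v - κ • emb p) = 0 := by
  classical
  rw [← sum_filter_add_sum_filter_not T GA]
  have hA : ∑ v ∈ T.filter GA, (emb v - κ • emb p) = 0 := by
    have h1 := sum_perm (T := T.filter GA) (h_inj hp) (fun v hv => by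
      rw [mem_filter, hT] at hv ⊢
      have := GA_h hp hv.1.1 hv.2
      exact ⟨⟨N_h hp hv.1.1, Or.inl this, by rw [b_h hp]; exact hv.1.2.2⟩, this⟩)
      (fun v => emb v - κ • emb p)
    have h2 : ∑ v ∈ T.filter GA, ((emb v - κ • emb p) + (emb (h p v) - κ • emb p)) = 0 := by
      apply sum_eq_zero
      intro v hv
      rw [mem_filter, hT] at hv
      rw [← hv.1.2.2]
      ext i
      fin_cases i <;> simp [emb, h] <;> ring
    rw [sum_add_distrib, h1, ← two_smul ℝ] at h2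
    exact (smul_eq_zero.1 h2).resolve_left (by norm_num)
  have hB : ∑ v ∈ T.filter (fun v => ¬ GA v), (emb v - κ • emb p) = 0 := by
    have hm : ∀ v ∈ T.filter (fun v => ¬ GA v), r p v ∈ T.filter (fun v => ¬ GA v) := by
      intro v hv
      rw [mem_filter, hT] at hv ⊢
      have := GB_r (p := p) (hv.1.2.1.resolve_left hv.2)
      exact ⟨⟨N_r hp hv.1.1, Or.inr this, by rw [b_r hp]; exact hv.1.2.2⟩, fun g => g.1 this.1⟩
    have h1 := sum_perm (r_inj hp) hm (fun v => emb v - κ • emb p)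
    have h1' := sum_perm (r_inj hp) hm (fun v => emb (r p v) - κ • emb p)
    have h2 : ∑ v ∈ T.filter (fun v => ¬ GA v), ((emb v - κ • emb p) + (emb (r p v) - κ • emb p)
        + (emb (r p (r p v)) - κ • emb p)) = 0 := by
      apply sum_eq_zero
      intro v hv
      rw [mem_filter, hT] at hv
      rw [← hv.1.2.2]
      obtain ⟨e1, e2, e3⟩ := r_sum hp v
      have e1' := congrArg (Int.cast : ℤ → ℝ) e1
      have e2' := congrArg (Int.cast : ℤ → ℝ) e2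
      have e3' := congrArg (Int.cast : ℤ → ℝ) e3
      push_cast at e1' e2' e3'
      ext i
      fin_cases i
      · simp [emb]; linear_combination e1'
      · simp [emb]; linear_combination √2 * (2 * e2' + e3')
      · simp [emb]; linear_combination √6 * e3'
    rw [sum_add_distrib, sum_add_distrib, h1', h1] at h2
    have h3 : (3 : ℝ) • ∑ v ∈ T.filter (fun v => ¬ GA v), (emb v - κ • emb p) = 0 := by
      rw [← h2]; module
    exact (smul_eq_zero.1 h3).resolve_left (by norm_num)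
  rw [hA, hB, add_zero]

/-- Lorentz form on `ℝ³` -/
def L (x y : Fin 3 → ℝ) : ℝ := x 0 * y 0 - (x 1 * y 1 + x 2 * y 2)

lemma L_emb (p v : V) : L (emb p) (emb v) = b p v := by
  have h2 : √2 * √2 = 2 := Real.mul_self_sqrt (by norm_num)
  have h6 : √6 * √6 = 6 := Real.mul_self_sqrt (by norm_num)
  simp only [L, emb, b, bet, gam]
  push_cast
  linear_combination (-(2 * (p.2.1 : ℝ) + p.2.2) * (2 * v.2.1 + v.2.2)) * h2 - (p.2.2 : ℝ) * v.2.2 * h6

lemma emb_inj : Function.Injective emb := by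
  intro v w hvw
  have h0 := congrFun hvw 0
  have h1 := congrFun hvw 1
  have h2 := congrFun hvw 2
  simp [emb] at h0 h1 h2
  have h1' : 2 * v.2.1 + v.2.2 = 2 * w.2.1 + w.2.2 := by exact_mod_cast h1
  refine Prod.ext h0 (Prod.ext ?_ h2)
  omega

lemma one_le_L {x y : Fin 3 → ℝ} (hx : L x x = 1) (hy : L y y = 1) (x0 : 0 < x 0) (y0 : 0 < y 0) :
    1 ≤ L x y := by
  simp only [L] at *
  have : 1 + (x 1 * y 1 + x 2 * y 2) ≤ x 0 * y 0 := by
    apply (le_abs_self _).trans (abs_le_of_sq_le_sq _ (mul_pos x0 y0).le)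
    have e1 : x 0 ^ 2 = 1 + x 1 ^ 2 + x 2 ^ 2 := by linarith
    have e2 : y 0 ^ 2 = 1 + y 1 ^ 2 + y 2 ^ 2 := by linarith
    rw [mul_pow, e1, e2]
    nlinarith [sq_nonneg (x 1 - y 1), sq_nonneg (x 2 - y 2), sq_nonneg (x 1 * y 2 - x 2 * y 1)]
  linarith

lemma pos_of_L {x y : Fin 3 → ℝ} (hx : L x x = 1) (hy : L y y = 1) (x0 : 0 < x 0)
    (hxy : 0 < L x y) : 0 < y 0 := by
  by_contra hc
  have h1 : y 0 ≠ 0 := by
    intro h0
    simp only [L, h0] at hy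
    nlinarith [sq_nonneg (y 1), sq_nonneg (y 2)]
  have h2 : 0 < (-y) 0 := by
    simp only [Pi.neg_apply]
    exact neg_pos.2 (lt_of_le_of_ne (not_lt.1 hc) h1)
  have := one_le_L (y := -y) hx (by simpa [L] using hy) x0 h2
  simp only [L, Pi.neg_apply] at this hxy
  linarith

lemma t_le {x y : Fin 3 → ℝ} (hx : L x x = 1) (hy : L y y = 1) (x0 : 0 < x 0) (y0 : 0 < y 0) :
    y 0 ≤ 2 * x 0 * L x y := by
  simp only [L] at *
  have e1 : x 0 ^ 2 = 1 + x 1 ^ 2 + x 2 ^ 2 := by linarith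
  have e2 : y 0 ^ 2 = 1 + y 1 ^ 2 + y 2 ^ 2 := by linarith
  have : 2 * x 0 * (x 1 * y 1 + x 2 * y 2) ≤ (2 * x 0 ^ 2 - 1) * y 0 := by
    apply (le_abs_self _).trans (abs_le_of_sq_le_sq _ (mul_nonneg (by nlinarith [sq_nonneg (x 1), sq_nonneg (x 2)]) y0.le))
    have c : (x 1 * y 1 + x 2 * y 2) ^ 2 ≤ (x 0 ^ 2 - 1) * y 0 ^ 2 := by
      rw [e1, e2]
      nlinarith [sq_nonneg (x 1), sq_nonneg (x 2), sq_nonneg (x 1 * y 2 - x 2 * y 1)]
    have c2 := mul_le_mul_of_nonneg_left c (sq_nonneg (2 * x 0))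
    nlinarith [sq_nonneg (y 0)]
  nlinarith

lemma fin_box (M : ℝ) : {v : V | N v ∧ 0 < emb v 0 ∧ emb v 0 ≤ M}.Finite := by
  obtain ⟨m, hm⟩ := exists_nat_ge M
  apply (Set.finite_Icc ((-m, -m, -m) : V) (m, m, m)).subset
  rintro ⟨s, x, y⟩ ⟨h1, h2, h3⟩
  simp only [emb, N, Matrix.cons_val_zero] at h1 h2 h3
  have h2' : 0 < 2 * s + 1 := by exact_mod_cast h2
  have h3' : 2 * s + 1 ≤ (m : ℤ) := by exact_mod_cast h3.trans hm
  have hs : 0 ≤ s := by omega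
  have hx : x ^ 2 ≤ (m : ℤ) ^ 2 := by nlinarith [sq_nonneg (x + 2 * y)]
  have hy : y ^ 2 ≤ (m : ℤ) ^ 2 := by nlinarith [sq_nonneg (y + 2 * x)]
  have hx' := abs_le.1 (abs_le_of_sq_le_sq hx (by positivity))
  have hy' := abs_le.1 (abs_le_of_sq_le_sq hy (by positivity))
  simp only [Set.mem_Icc, Prod.mk_le_mk]
  omega

lemma rigid {v w : V} (hv : N v) (hw : N w) (gv : GA v ∨ GB v) (gw : GA w ∨ GB w)
    (h1 : b (0, 0, 0) v = 3) (h2 : b (0, 0, 0) w = 5) (h3 : b v w = 15) : v = (1, 0, -1) := by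
  obtain ⟨s, x, y⟩ := v
  obtain ⟨s', x', y'⟩ := w
  simp only [N, b, bet, gam, GA, GB] at *
  have e1 : s = 1 := by omega
  have e2 : s' = 2 := by omega
  subst e1 e2
  have a1 : x ≤ 1 := by nlinarith [sq_nonneg (x + 2 * y)]
  have a2 : -1 ≤ x := by nlinarith [sq_nonneg (x + 2 * y)]
  have a3 : y ≤ 1 := by nlinarith [sq_nonneg (y + 2 * x)]
  have a4 : -1 ≤ y := by nlinarith [sq_nonneg (y + 2 * x)]
  have b1 : x' ≤ 2 := by nlinarith [sq_nonneg (x' + 2 * y')]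
  have b2 : -2 ≤ x' := by nlinarith [sq_nonneg (x' + 2 * y')]
  have b3 : y' ≤ 2 := by nlinarith [sq_nonneg (y' + 2 * x')]
  have b4 : -2 ≤ y' := by nlinarith [sq_nonneg (y' + 2 * x')]
  interval_cases x <;> interval_cases y <;> interval_cases x' <;> interval_cases y' <;>
    first | rfl | omega

end Pool.Agent.H.MP_906af0_co
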